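import Mathlib

/-!
# Sweeping a three-dimensional grid

Mod 2 cochains on the `n × n × n` grid: approximate fillings, an isoperimetric inequality and the
two-parameter sweep argument.
-/

namespace Pool.Agent.H16.GridSweep

open Finset

/-- grid points -/
abbrev Vt := ℕ × ℕ × ℕ

/-- shift by one in direction `d` -/
def sh (d : Fin 3) (v : Vt) : Vt :=
  if d = 0 then (v.1 + 1, v.2.1, v.2.2)
  else if d = 1 then (v.1, v.2.1 + 1, v.2.2)
  else (v.1, v.2.1, v.2.2 + 1)

theorem sh0 (v : Vt) : sh 0 v = (v.1 + 1, v.2.1, v.2.2) := by simp [sh]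
theorem sh1 (v : Vt) : sh 1 v = (v.1, v.2.1 + 1, v.2.2) := by simp [sh]
theorem sh2 (v : Vt) : sh 2 v = (v.1, v.2.1, v.2.2 + 1) := by simp [sh]

theorem sh_inj (d : Fin 3) : Function.Injective (sh d) := by
  intro v w h
  obtain ⟨x, y, z⟩ := v
  obtain ⟨x', y', z'⟩ := w
  fin_cases d
  · simp [sh0] at h; simp [h]
  · simp [sh1] at h; simp [h]
  · simp [sh2] at h; simp [h]

theorem sh_comm (d d' : Fin 3) (v : Vt) : sh d (sh d' v) = sh d' (sh d v) := by
  fin_cases d <;> fin_cases d' <;> simp [sh]

/-- the cube `{0, ..., n-1}^3` -/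
def box (n : ℕ) : Finset Vt := range n ×ˢ range n ×ˢ range n

theorem mem_box {n : ℕ} {v : Vt} : v ∈ box n ↔ v.1 < n ∧ v.2.1 < n ∧ v.2.2 < n := by
  simp [box]

theorem card_box (n : ℕ) : (box n).card = n ^ 3 := by
  simp [box, card_product]; ring

theorem box_of_sh {n : ℕ} {d : Fin 3} {v : Vt} (h : sh d v ∈ box n) : v ∈ box n := by
  rw [mem_box] at h ⊢
  fin_cases d
  · simp only [Fin.zero_eta, sh0] at h; omega
  · simp only [Fin.mk_one, sh1] at h; omega
  · simp only [Fin.reduceFinMk, sh2] at h; omega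

/-- edges of the grid: direction and lower end -/
def edges (n : ℕ) : Finset (Fin 3 × Vt) := (univ ×ˢ box n).filter (fun e => sh e.1 e.2 ∈ box n)

theorem mem_edges {n : ℕ} {e : Fin 3 × Vt} : e ∈ edges n ↔ sh e.1 e.2 ∈ box n := by
  simp only [edges, mem_filter, mem_product, mem_univ, true_and]
  exact ⟨fun h => h.2, fun h => ⟨box_of_sh h, h⟩⟩

/-- unit squares of the grid: the two directions and the lowest corner -/
def squares (n : ℕ) : Finset (Fin 3 × Fin 3 × Vt) :=
  (univ ×ˢ univ ×ˢ box n).filter (fun s => s.1 < s.2.1 ∧ sh s.1 (sh s.2.1 s.2.2) ∈ box n)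

theorem mem_squares {n : ℕ} {s : Fin 3 × Fin 3 × Vt} :
    s ∈ squares n ↔ s.1 < s.2.1 ∧ sh s.1 (sh s.2.1 s.2.2) ∈ box n := by
  simp only [squares, mem_filter, mem_product, mem_univ, true_and]
  exact ⟨fun h => h.2, fun h => ⟨box_of_sh (box_of_sh h.2), h⟩⟩

/-- mod 2 one-cochains -/
abbrev Coch := Fin 3 × Vt → ZMod 2

/-- value of the coboundary on a square -/
def sqv (c : Coch) (s : Fin 3 × Fin 3 × Vt) : ZMod 2 :=
  c (s.1, s.2.2) + c (s.1, sh s.2.1 s.2.2) + c (s.2.1, s.2.2) + c (s.2.1, sh s.1 s.2.2)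

/-- coboundary of a vertex function -/
def dl (S : Vt → ZMod 2) : Coch := fun e => S e.2 + S (sh e.1 e.2)

/-- number of edges where the cochain does not vanish -/
def wt (n : ℕ) (c : Coch) : ℕ := ((edges n).filter (fun e => c e ≠ 0)).card

/-- number of squares with odd value -/
def odd (n : ℕ) (c : Coch) : ℕ := ((squares n).filter (fun s => sqv c s ≠ 0)).card

theorem z2 (a : ZMod 2) : a + a = 0 := by
  revert a; decide

theorem sqv_dl (S : Vt → ZMod 2) (s : Fin 3 × Fin 3 × Vt) : sqv (dl S) s = 0 := by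
  simp only [sqv, dl]
  rw [sh_comm s.2.1 s.1]
  have := z2 (S s.2.2)
  have := z2 (S (sh s.1 s.2.2))
  have := z2 (S (sh s.2.1 s.2.2))
  have := z2 (S (sh s.1 (sh s.2.1 s.2.2)))
  linear_combination z2 (S s.2.2) + z2 (S (sh s.1 s.2.2)) + z2 (S (sh s.2.1 s.2.2)) +
    z2 (S (sh s.1 (sh s.2.1 s.2.2)))

theorem sqv_add (c c' : Coch) (s : Fin 3 × Fin 3 × Vt) :
    sqv (c + c') s = sqv c s + sqv c' s := by
  simp only [sqv, Pi.add_apply]; ring

/-- if `g` takes different values somewhere, it jumps somewhere -/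
theorem exists_jump (g : ℕ → ZMod 2) (n : ℕ) {a b : ℕ} (ha : a < n) (hb : b < n)
    (h : g a ≠ g b) : ∃ i, i + 1 < n ∧ g i ≠ g (i + 1) := by
  by_contra hcon
  push Not at hcon
  have key : ∀ i, i < n → g i = g 0 := by
    intro i
    induction i with
    | zero => intro _; rfl
    | succ i ih => intro hi; rw [← hcon i hi, ih (by omega)]
  exact h ((key a ha).trans (key b hb).symm)

theorem fill_exists (n : ℕ) (c : Coch) (h : odd n c < n) :
    ∃ S : Vt → ZMod 2, wt n (c + dl S) ≤ n * odd n c := by
  classical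
  -- a level without odd horizontal squares
  obtain ⟨z0, hz0, hlev⟩ : ∃ z0, z0 < n ∧ ∀ x y, (0, 1, (x, y, z0)) ∈ squares n →
      sqv c (0, 1, (x, y, z0)) = 0 := by
    by_contra hcon
    push Not at hcon
    have hsub : range n ⊆ ((squares n).filter (fun s => sqv c s ≠ 0)).image
        (fun s => s.2.2.2.2) := by
      intro z hz
      obtain ⟨x, y, h1, h2⟩ := hcon z (mem_range.1 hz)
      exact mem_image.2 ⟨(0, 1, (x, y, z)), mem_filter.2 ⟨h1, h2⟩, rfl⟩
    have h1 := card_le_card hsub
    have h2 : (((squares n).filter (fun s => sqv c s ≠ 0)).image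
        (fun s => s.2.2.2.2)).card ≤ odd n c := card_image_le
    rw [card_range] at h1
    omega
  let F : Vt → ZMod 2 := fun v => ∑ z' ∈ range v.2.2, c (2, (v.1, v.2.1, z'))
  let a : Coch := c + dl F
  have ha2 : ∀ v, a (2, v) = 0 := by
    rintro ⟨x, y, z⟩
    simp only [a, Pi.add_apply, dl, sh2, F]
    rw [sum_range_succ]
    linear_combination z2 (c (2, (x, y, z))) + z2 (∑ z' ∈ range z, c (2, (x, y, z')))
  have hsq : ∀ s, sqv a s = sqv c s := by
    intro s
    simp only [a]
    rw [sqv_add, sqv_dl, add_zero]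
  let g : ℕ → ℕ → ZMod 2 := fun x y =>
    ∑ y' ∈ range y, a (1, (x, y', z0)) + ∑ x' ∈ range x, a (0, (x', 0, z0))
  let G : Vt → ZMod 2 := fun v => g v.1 v.2.1
  have hg1 : ∀ x y, g x y + g x (y + 1) = a (1, (x, y, z0)) := by
    intro x y
    simp only [g]
    rw [sum_range_succ]
    linear_combination z2 (∑ y' ∈ range y, a (1, (x, y', z0))) +
      z2 (∑ x' ∈ range x, a (0, (x', 0, z0)))
  have hg0 : ∀ x y, x + 1 < n → y < n → g x y + g (x + 1) y = a (0, (x, y, z0)) := by
    intro x y hx
    induction y with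
    | zero =>
      intro _
      simp only [g, range_zero, sum_empty, zero_add]
      rw [sum_range_succ]
      linear_combination z2 (∑ x' ∈ range x, a (0, (x', 0, z0)))
    | succ y ih =>
      intro hy
      have h1 := ih (by omega)
      have h2 := hg1 x y
      have h3 := hg1 (x + 1) y
      have h4 : (0, 1, (x, y, z0)) ∈ squares n := by
        rw [mem_squares]
        refine ⟨(by decide : (0 : Fin 3) < 1), ?_⟩
        simp only [sh0, sh1, mem_box]
        omega
      have h5 := hlev x y h4
      rw [← hsq] at h5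
      simp only [sqv, sh0, sh1] at h5
      linear_combination h1 + h2 + h3 + h5 - z2 (g x y) - z2 (g (x + 1) y)
        - z2 (a (0, (x, y + 1, z0)))
  refine ⟨F + G, ?_⟩
  have hdl : c + dl (F + G) = a + dl G := by
    funext e
    simp only [a, Pi.add_apply, dl]
    ring
  rw [hdl]
  -- every bad edge lies in the vertical line through an odd vertical square
  have hsub : (edges n).filter (fun e => (a + dl G) e ≠ 0) ⊆
      (((squares n).filter (fun s => sqv c s ≠ 0)) ×ˢ range n).image
        (fun p => (p.1.1, (p.1.2.2.1, p.1.2.2.2.1, p.2))) := by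
    rintro ⟨d, x, y, z⟩ he
    obtain ⟨he1, he2⟩ := mem_filter.1 he
    rw [mem_edges] at he1
    have hbox := mem_box.1 (box_of_sh he1)
    simp only at hbox
    fin_cases d
    · simp only [Fin.zero_eta, sh0, mem_box] at he1
      simp only [Fin.zero_eta, Pi.add_apply, dl, G, sh0] at he2
      rw [hg0 x y he1.1 hbox.2.1] at he2
      have hne : a (0, (x, y, z)) ≠ a (0, (x, y, z0)) := by
        intro heq
        apply he2
        rw [heq]; exact z2 _
      obtain ⟨z', hz', hj⟩ := exists_jump (fun z => a (0, (x, y, z))) n hbox.2.2 hz0 hne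
      refine mem_image.2 ⟨((0, 2, (x, y, z')), z), ?_, rfl⟩
      rw [mem_product, mem_filter, mem_squares]
      refine ⟨⟨⟨(by decide : (0 : Fin 3) < 2), ?_⟩, ?_⟩, mem_range.2 hbox.2.2⟩
      · simp only [sh0, sh2, mem_box]
        omega
      · rw [← hsq]
        simp only [sqv, sh0, sh2, ha2, add_zero]
        intro h0
        apply hj
        linear_combination h0 - z2 (a (0, (x, y, z' + 1)))
    · simp only [Fin.mk_one, sh1, mem_box] at he1
      simp only [Fin.mk_one, Pi.add_apply, dl, G, sh1] at he2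
      rw [hg1 x y] at he2
      have hne : a (1, (x, y, z)) ≠ a (1, (x, y, z0)) := by
        intro heq
        apply he2
        rw [heq]; exact z2 _
      obtain ⟨z', hz', hj⟩ := exists_jump (fun z => a (1, (x, y, z))) n hbox.2.2 hz0 hne
      refine mem_image.2 ⟨((1, 2, (x, y, z')), z), ?_, rfl⟩
      rw [mem_product, mem_filter, mem_squares]
      refine ⟨⟨⟨(by decide : (1 : Fin 3) < 2), ?_⟩, ?_⟩, mem_range.2 hbox.2.2⟩
      · simp only [sh1, sh2, mem_box]
        omega
      · rw [← hsq]
        simp only [sqv, sh1, sh2, ha2, add_zero]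
        intro h0
        apply hj
        linear_combination h0 - z2 (a (1, (x, y, z' + 1)))
    · exfalso
      apply he2
      simp only [Fin.reduceFinMk, Pi.add_apply, ha2, dl, G, sh2]
      rw [zero_add]
      exact z2 _
  calc wt n (a + dl G) ≤ _ := card_le_card hsub
    _ ≤ _ := card_image_le
    _ = n * odd n c := by rw [card_product, card_range, mul_comm]; rfl

/-- number of points of the cube where the function does not vanish -/
def sz (n : ℕ) (S : Vt → ZMod 2) : ℕ := ((box n).filter (fun v => S v ≠ 0)).card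

/-- isoperimetric inequality -/
theorem isoperimetry (n : ℕ) (S : Vt → ZMod 2) :
    sz n S * (n ^ 3 - sz n S) ≤ n ^ 4 * wt n (dl S) := by
  classical
  have hcompl : n ^ 3 - sz n S = ((box n).filter (fun v => ¬ (S v ≠ 0))).card := by
    have := card_filter_add_card_filter_not (s := box n) (fun v => S v ≠ 0)
    rw [card_box] at this
    rw [← this, sz]; omega
  rw [hcompl, sz, ← card_product]
  let fib : Fin 3 × Vt → Finset (Vt × Vt) := fun e =>
    if e.1 = 0 then (range n ×ˢ {e.2.2.1} ×ˢ {e.2.2.2}) ×ˢ (range n ×ˢ range n ×ˢ range n)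
    else if e.1 = 1 then (range n ×ˢ range n ×ˢ {e.2.2.2}) ×ˢ ({e.2.1} ×ˢ range n ×ˢ range n)
    else (range n ×ˢ range n ×ˢ range n) ×ˢ ({e.2.1} ×ˢ {e.2.2.1} ×ˢ range n)
  have hfib : ∀ e, (fib e).card = n ^ 4 := by
    intro e
    simp only [fib]
    split_ifs <;> simp only [card_product, card_range, card_singleton] <;> ring
  have hsub : ((box n).filter (fun v => S v ≠ 0)) ×ˢ ((box n).filter (fun v => ¬ (S v ≠ 0)))
      ⊆ ((edges n).filter (fun e => dl S e ≠ 0)).biUnion fib := by
    rintro ⟨⟨x, y, z⟩, ⟨x', y', z'⟩⟩ h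
    simp only [mem_product, mem_filter, mem_box, not_not] at h
    obtain ⟨⟨⟨hx, hy, hz⟩, hS⟩, ⟨⟨hx', hy', hz'⟩, hS'⟩⟩ := h
    rw [mem_biUnion]
    by_cases h1 : S (x, y, z) = S (x', y, z)
    · by_cases h2 : S (x', y, z) = S (x', y', z)
      · have h3 : S (x', y', z) ≠ S (x', y', z') := by
          intro h3; apply hS; rw [h1, h2, h3, hS']
        obtain ⟨i, hi, hj⟩ := exists_jump (fun i => S (x', y', i)) n hz hz' h3
        refine ⟨(2, (x', y', i)), ?_, ?_⟩
        · rw [mem_filter, mem_edges]
          simp only [sh2, dl, mem_box]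
          refine ⟨by omega, ?_⟩
          intro h0; apply hj
          linear_combination h0 - z2 (S (x', y', i + 1))
        · simp [fib, hx, hy, hz, hz']
      · obtain ⟨i, hi, hj⟩ := exists_jump (fun i => S (x', i, z)) n hy hy' h2
        refine ⟨(1, (x', i, z)), ?_, ?_⟩
        · rw [mem_filter, mem_edges]
          simp only [sh1, dl, mem_box]
          refine ⟨by omega, ?_⟩
          intro h0; apply hj
          linear_combination h0 - z2 (S (x', i + 1, z))
        · simp [fib, hx, hy, hy', hz']
    · obtain ⟨i, hi, hj⟩ := exists_jump (fun i => S (i, y, z)) n hx hx' h1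
      refine ⟨(0, (i, y, z)), ?_, ?_⟩
      · rw [mem_filter, mem_edges]
        simp only [sh0, dl, mem_box]
        refine ⟨by omega, ?_⟩
        intro h0; apply hj
        linear_combination h0 - z2 (S (i + 1, y, z))
      · simp [fib, hx, hx', hy', hz']
  calc _ ≤ _ := card_le_card hsub
    _ ≤ ∑ e ∈ (edges n).filter (fun e => dl S e ≠ 0), (fib e).card := card_biUnion_le
    _ = n ^ 4 * wt n (dl S) := by
        rw [sum_congr rfl (fun e _ => hfib e), sum_const, smul_eq_mul, mul_comm]; rfl

theorem wt_add (n : ℕ) (c c' : Coch) : wt n (c + c') ≤ wt n c + wt n c' := by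
  classical
  rw [wt, wt, wt]
  refine (card_le_card ?_).trans (card_union_le _ _)
  intro e he
  rw [mem_filter] at he
  rw [mem_union, mem_filter, mem_filter]
  by_contra hcon
  push Not at hcon
  apply he.2
  rw [Pi.add_apply, hcon.1 he.1, hcon.2 he.1, add_zero]

theorem dl_add (S S' : Vt → ZMod 2) : dl (S + S') = dl S + dl S' := by
  funext e
  simp only [dl, Pi.add_apply]; ring

/-- the type of a set: `0` if it is less than half of the cube, `1` otherwise -/
def ty (n : ℕ) (S : Vt → ZMod 2) : ZMod 2 := if 2 * sz n S < n ^ 3 then 0 else 1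

theorem sz_le (n : ℕ) (S : Vt → ZMod 2) : sz n S ≤ n ^ 3 := by
  rw [← card_box]; exact card_filter_le _ _

/-- number of zeros of the function in the cube -/
def cz (n : ℕ) (S : Vt → ZMod 2) : ℕ := ((box n).filter (fun v => S v = 0)).card

theorem sz_add_cz (n : ℕ) (S : Vt → ZMod 2) : sz n S + cz n S = n ^ 3 := by
  have := card_filter_add_card_filter_not (s := box n) (fun v => S v ≠ 0)
  rw [card_box] at this
  simp only [not_not] at this
  exact this

theorem z2_ne {a : ZMod 2} (h : a ≠ 0) : a = 1 := by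
  revert a; decide

theorem dichotomy {n M : ℕ} {S : Vt → ZMod 2} (hM : 16 * M < n ^ 2) (h : wt n (dl S) ≤ M) :
    (ty n S = 0 ∧ 8 * sz n S < n ^ 3) ∨ (ty n S = 1 ∧ 8 * cz n S < n ^ 3) := by
  have hn : 0 < n := by
    rcases Nat.eq_zero_or_pos n with h0 | h0
    · subst h0; simp at hM
    · exact h0
  have hiso := isoperimetry n S
  have hsc := sz_add_cz n S
  have hcz : n ^ 3 - sz n S = cz n S := by omega
  rw [hcz] at hiso
  have h4 : n ^ 4 * wt n (dl S) * 16 < n ^ 4 * n ^ 2 := by
    have h5 : wt n (dl S) * 16 < n ^ 2 := by omega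
    calc n ^ 4 * wt n (dl S) * 16 = n ^ 4 * (wt n (dl S) * 16) := by ring
      _ < n ^ 4 * n ^ 2 := Nat.mul_lt_mul_of_pos_left h5 (by positivity)
  have h6 : sz n S * cz n S * 16 < n ^ 3 * n ^ 3 := by
    calc sz n S * cz n S * 16 ≤ n ^ 4 * wt n (dl S) * 16 := Nat.mul_le_mul_right _ hiso
      _ < n ^ 4 * n ^ 2 := h4
      _ = n ^ 3 * n ^ 3 := by ring
  unfold ty
  generalize hs : sz n S = s at *
  generalize hc : cz n S = t at *
  generalize hN : n ^ 3 = N at *
  have hNpos : 0 < N := by rw [← hN]; positivity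
  split_ifs with hlt
  · left
    refine ⟨rfl, ?_⟩
    by_contra hge
    push Not at hge
    -- s ≥ N/8, t > N/2
    nlinarith
  · right
    refine ⟨rfl, ?_⟩
    by_contra hge
    push Not at hge
    push Not at hlt
    nlinarith

theorem sz_add_le (n : ℕ) (S S' : Vt → ZMod 2) : sz n (S + S') ≤ sz n S + sz n S' := by
  classical
  rw [sz, sz, sz]
  refine (card_le_card ?_).trans (card_union_le _ _)
  intro e he
  rw [mem_filter] at he
  rw [mem_union, mem_filter, mem_filter]
  by_contra hcon
  push Not at hcon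
  apply he.2
  rw [Pi.add_apply, hcon.1 he.1, hcon.2 he.1, add_zero]

theorem cz_add_le (n : ℕ) (S S' : Vt → ZMod 2) : cz n (S + S') ≤ sz n S + cz n S' := by
  classical
  rw [sz, cz, cz]
  refine (card_le_card ?_).trans (card_union_le _ _)
  intro e he
  rw [mem_filter] at he
  rw [mem_union, mem_filter, mem_filter]
  by_contra hcon
  push Not at hcon
  have h1 := hcon.1 he.1
  have h2 := z2_ne (hcon.2 he.1)
  have h3 := he.2
  rw [Pi.add_apply, h1, h2] at h3
  exact absurd h3 (by decide)

theorem sz_add_le' (n : ℕ) (S S' : Vt → ZMod 2) : sz n (S + S') ≤ cz n S + cz n S' := by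
  classical
  rw [sz, cz, cz]
  refine (card_le_card ?_).trans (card_union_le _ _)
  intro e he
  rw [mem_filter] at he
  rw [mem_union, mem_filter, mem_filter]
  by_contra hcon
  push Not at hcon
  have h1 := z2_ne (hcon.1 he.1)
  have h2 := z2_ne (hcon.2 he.1)
  apply he.2
  rw [Pi.add_apply, h1, h2]
  decide

theorem ty_add {n M : ℕ} {S S' : Vt → ZMod 2} (hM : 16 * M < n ^ 2)
    (h : wt n (dl S) ≤ M) (h' : wt n (dl S') ≤ M) : ty n (S + S') = ty n S + ty n S' := by
  have hsc := sz_add_cz n (S + S')
  rcases dichotomy hM h with ⟨h1, h2⟩ | ⟨h1, h2⟩ <;>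
    rcases dichotomy hM h' with ⟨h3, h4⟩ | ⟨h3, h4⟩ <;> rw [h1, h3]
  · have := sz_add_le n S S'
    have : 2 * sz n (S + S') < n ^ 3 := by omega
    rw [ty, if_pos this]; decide
  · have := cz_add_le n S S'
    have : ¬ 2 * sz n (S + S') < n ^ 3 := by omega
    rw [ty, if_neg this]; decide
  · have := cz_add_le n S' S
    rw [add_comm S' S] at this
    have : ¬ 2 * sz n (S + S') < n ^ 3 := by omega
    rw [ty, if_neg this]; decide
  · have := sz_add_le' n S S'
    have : 2 * sz n (S + S') < n ^ 3 := by omega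
    rw [ty, if_pos this]; decide


/-- indicator function mod 2 -/
def ind (S : Finset Vt) : Vt → ZMod 2 := fun v => if v ∈ S then 1 else 0

/-- the cochain of the edges between `S` and `R` -/
def cut (S R : Finset Vt) : Coch :=
  fun e => ind S e.2 * ind R (sh e.1 e.2) + ind R e.2 * ind S (sh e.1 e.2)

theorem cut_empty (S : Finset Vt) : cut S ∅ = 0 := by
  funext e; simp [cut, ind]

theorem empty_cut (R : Finset Vt) : cut ∅ R = 0 := by
  funext e; simp [cut, ind]

theorem edges_near (n : ℕ) (P : Finset Vt) :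
    ((edges n).filter (fun e => e.2 ∈ P ∨ sh e.1 e.2 ∈ P)).card ≤ 6 * P.card := by
  classical
  rw [filter_or]
  refine (card_union_le _ _).trans ?_
  have h1 : ((edges n).filter (fun e => e.2 ∈ P)).card ≤ 3 * P.card := by
    have : ((edges n).filter (fun e => e.2 ∈ P)) ⊆ (univ : Finset (Fin 3)) ×ˢ P := by
      intro e he
      rw [mem_product]
      exact ⟨mem_univ _, (mem_filter.1 he).2⟩
    refine (card_le_card this).trans ?_
    rw [card_product, card_univ, Fintype.card_fin]
  have h2 : ((edges n).filter (fun e => sh e.1 e.2 ∈ P)).card ≤ 3 * P.card := by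
    have : ((edges n).filter (fun e => sh e.1 e.2 ∈ P)).card ≤
        ((univ : Finset (Fin 3)) ×ˢ P).card := by
      apply card_le_card_of_injOn (fun e => (e.1, sh e.1 e.2))
      · intro e he
        exact mem_product.2 ⟨mem_univ _, (mem_filter.1 he).2⟩
      · rintro ⟨d, v⟩ _ ⟨d', v'⟩ _ h
        simp only [Prod.mk.injEq] at h
        obtain ⟨rfl, h2⟩ := h
        rw [sh_inj d h2]
    refine this.trans ?_
    rw [card_product, card_univ, Fintype.card_fin]
  omega

theorem squares_near (n : ℕ) (P : Finset Vt) :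
    ((squares n).filter (fun s => s.2.2 ∈ P ∨ sh s.1 s.2.2 ∈ P ∨ sh s.2.1 s.2.2 ∈ P ∨
      sh s.1 (sh s.2.1 s.2.2) ∈ P)).card ≤ 36 * P.card := by
  classical
  have key : ∀ f : Fin 3 → Fin 3 → Vt → Vt, (∀ d d', Function.Injective (f d d')) →
      ((squares n).filter (fun s => f s.1 s.2.1 s.2.2 ∈ P)).card ≤ 9 * P.card := by
    intro f hf
    have : ((squares n).filter (fun s => f s.1 s.2.1 s.2.2 ∈ P)).card ≤
        ((univ : Finset (Fin 3)) ×ˢ (univ : Finset (Fin 3)) ×ˢ P).card := by
      apply card_le_card_of_injOn (fun s => (s.1, s.2.1, f s.1 s.2.1 s.2.2))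
      · intro e he
        exact mem_product.2 ⟨mem_univ _, mem_product.2 ⟨mem_univ _, (mem_filter.1 he).2⟩⟩
      · rintro ⟨d, e, v⟩ _ ⟨d', e', v'⟩ _ h
        simp only [Prod.mk.injEq] at h
        obtain ⟨rfl, rfl, h2⟩ := h
        rw [hf d e h2]
    refine this.trans ?_
    rw [card_product, card_product, card_univ, Fintype.card_fin]
    omega
  rw [filter_or, filter_or, filter_or]
  have h1 := key (fun _ _ v => v) (fun _ _ => Function.injective_id)
  have h2 := key (fun d _ v => sh d v) (fun d _ => sh_inj d)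
  have h3 := key (fun _ d v => sh d v) (fun _ d => sh_inj d)
  have h4 := key (fun d d' v => sh d (sh d' v)) (fun d d' => (sh_inj d).comp (sh_inj d'))
  refine (card_union_le _ _).trans ?_
  refine (Nat.add_le_add_left (card_union_le _ _) _).trans ?_
  refine (Nat.add_le_add_left (Nat.add_le_add_left (card_union_le _ _) _) _).trans ?_
  omega

/-- `q` varies slowly along the edges touching `S` -/
def Close (n k : ℕ) (S : Finset Vt) (q : Vt → ℕ) : Prop :=
  ∀ v d, sh d v ∈ box n → (v ∈ S ∨ sh d v ∈ S) → q v ≤ q (sh d v) + k ∧ q (sh d v) ≤ q v + k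

/-- `q` takes every value few times outside `S` -/
def Few (n c : ℕ) (S : Finset Vt) (q : Vt → ℕ) : Prop :=
  ∀ m, ((box n \ S).filter (fun p => q p = m)).card ≤ c

/-- the part of the complement of `S` swept by both functions -/
def Rg (n : ℕ) (S : Finset Vt) (q : Vt → ℕ) (i : ℕ) (q' : Vt → ℕ) (j : ℕ) : Finset Vt :=
  (box n \ S).filter (fun p => q p < i ∧ q' p < j)

theorem mem_Rg {n : ℕ} {S : Finset Vt} {q q' : Vt → ℕ} {i j : ℕ} {p : Vt} :
    p ∈ Rg n S q i q' j ↔ (p ∈ box n ∧ p ∉ S) ∧ q p < i ∧ q' p < j := by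
  rw [Rg, mem_filter, mem_sdiff]

theorem band_card {n c k : ℕ} {S : Finset Vt} {q : Vt → ℕ} (h : Few n c S q) (i : ℕ) :
    ((box n \ S).filter (fun p => i ≤ q p + 3 * k ∧ q p < i)).card ≤ 3 * k * c := by
  classical
  have hsub : (box n \ S).filter (fun p => i ≤ q p + 3 * k ∧ q p < i) ⊆
      (Finset.Ico (i - 3 * k) i).biUnion (fun m => (box n \ S).filter (fun p => q p = m)) := by
    intro p hp
    rw [mem_filter] at hp
    rw [mem_biUnion]
    refine ⟨q p, mem_Ico.2 ⟨by omega, by omega⟩, mem_filter.2 ⟨hp.1, rfl⟩⟩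
  calc _ ≤ _ := card_le_card hsub
    _ ≤ ∑ m ∈ Finset.Ico (i - 3 * k) i, ((box n \ S).filter (fun p => q p = m)).card :=
      card_biUnion_le
    _ ≤ ∑ m ∈ Finset.Ico (i - 3 * k) i, c := sum_le_sum (fun m _ => h m)
    _ = (i - (i - 3 * k)) * c := by rw [sum_const, Nat.card_Ico, smul_eq_mul]
    _ ≤ 3 * k * c := Nat.mul_le_mul_right _ (by omega)

theorem ite_eq_of_iff {p q : Prop} [Decidable p] [Decidable q] (h : p ↔ q) :
    (if p then (1 : ZMod 2) else 0) + (if q then (1 : ZMod 2) else 0) = 0 := by
  by_cases hp : p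
  · have hq := h.1 hp
    simp only [hp, hq, if_true]; decide
  · have hq : ¬ q := fun hq => hp (h.2 hq)
    simp only [hp, hq, if_false]; decide

theorem odd_cut_le {n k c c' i j : ℕ} {S : Finset Vt} {q q' : Vt → ℕ}
    (hq : Close n k S q) (hq' : Close n k S q') (hf : Few n c S q) (hf' : Few n c' S q') :
    odd n (cut S (Rg n S q i q' j)) ≤ 36 * (3 * k * (c + c')) := by
  classical
  let P : Finset Vt := (box n \ S).filter (fun p => i ≤ q p + 3 * k ∧ q p < i) ∪
    (box n \ S).filter (fun p => j ≤ q' p + 3 * k ∧ q' p < j)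
  have hP : P.card ≤ 3 * k * (c + c') := by
    refine (card_union_le _ _).trans ?_
    have h1 := band_card (k := k) hf i
    have h2 := band_card (k := k) hf' j
    rw [mul_add]
    omega
  refine le_trans ?_ (Nat.mul_le_mul_left 36 hP)
  refine le_trans ?_ (squares_near n P)
  apply card_le_card
  intro s hs
  obtain ⟨hs1, hs2⟩ := mem_filter.1 hs
  refine mem_filter.2 ⟨hs1, ?_⟩
  obtain ⟨d, d', v⟩ := s
  have h3 := (mem_squares.1 hs1).2
  simp only at h3 ⊢
  have b3 := h3
  have b2 := box_of_sh b3
  have b1 : sh d v ∈ box n := by rw [sh_comm] at b3; exact box_of_sh b3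
  have b0 := box_of_sh b1
  by_contra hcon
  push Not at hcon
  obtain ⟨n0, n1, n2, n3⟩ := hcon
  have hout : ∀ p, p ∈ box n → p ∉ P → p ∉ S →
      ¬ (i ≤ q p + 3 * k ∧ q p < i) ∧ ¬ (j ≤ q' p + 3 * k ∧ q' p < j) := by
    intro p hp hpP hpS
    constructor
    · intro hh
      exact hpP (mem_union_left _ (mem_filter.2 ⟨mem_sdiff.2 ⟨hp, hpS⟩, hh⟩))
    · intro hh
      exact hpP (mem_union_right _ (mem_filter.2 ⟨mem_sdiff.2 ⟨hp, hpS⟩, hh⟩))
  have o0 := hout _ b0 n0
  have o1 := hout _ b1 n1
  have o2 := hout _ b2 n2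
  have o3 := hout _ b3 n3
  -- adjacency: v - sh d v, v - sh d' v, sh d' v - v3, sh d v - v3
  have e01 := hq v d b1
  have e02 := hq v d' b2
  have e23 := hq (sh d' v) d b3
  have e13 := hq (sh d v) d' (by rw [sh_comm]; exact b3)
  have f01 := hq' v d b1
  have f02 := hq' v d' b2
  have f23 := hq' (sh d' v) d b3
  have f13 := hq' (sh d v) d' (by rw [sh_comm]; exact b3)
  rw [sh_comm d' d] at e13 f13
  apply hs2
  simp only [sqv, cut, ind, mem_Rg, b0, b1, b2, b3, true_and]
  rw [sh_comm d' d]
  simp only [b3, true_and]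
  generalize hv0 : v = v0 at *
  generalize hv1 : sh d v0 = v1 at *
  generalize hv2 : sh d' v0 = v2 at *
  generalize hv3 : sh d v2 = v3 at *
  by_cases s0 : v0 ∈ S <;> by_cases s1 : v1 ∈ S <;> by_cases s2 : v2 ∈ S <;>
    by_cases s3 : v3 ∈ S <;>
    simp only [s0, s1, s2, s3, not_true_eq_false, not_false_eq_true, true_and, false_and,
      if_true, if_false, mul_one, mul_zero, one_mul, zero_mul, add_zero, zero_add,
      true_or, or_true, false_or, forall_const] at *
  all_goals first
    | rfl
    | exact z2 _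
    | exact ite_eq_of_iff (by omega)
    | (have hh : ∀ a b : ZMod 2, a + b + a + b = 0 := by decide
       exact hh _ _)
    | (have hh : ∀ a b : ZMod 2, a + b + b + a = 0 := by decide
       exact hh _ _)

/-- a chosen approximate filling -/
noncomputable def Fill (n : ℕ) (c : Coch) : Vt → ZMod 2 :=
  if h : odd n c < n then Classical.choose (fill_exists n c h) else 0

theorem Fill_spec {n K : ℕ} {c : Coch} (h : odd n c ≤ K) (hK : K < n) :
    wt n (c + dl (Fill n c)) ≤ n * K := by
  have h' : odd n c < n := lt_of_le_of_lt h hK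
  rw [Fill, dif_pos h']
  exact (Classical.choose_spec (fill_exists n c h')).trans (Nat.mul_le_mul_left n h)

theorem dl_diff {n K L : ℕ} {c c' : Coch} {F F' : Vt → ZMod 2} (h : wt n (c + dl F) ≤ K)
    (h' : wt n (c' + dl F') ≤ K) (hc : wt n (c + c') ≤ L) : wt n (dl (F + F')) ≤ 2 * K + L := by
  have heq : dl (F + F') = (c + dl F) + (c' + dl F') + (c + c') := by
    rw [dl_add]
    funext e
    simp only [Pi.add_apply]
    linear_combination -z2 (c e) - z2 (c' e)
  rw [heq]
  have h1 := wt_add n ((c + dl F) + (c' + dl F')) (c + c')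
  have h2 := wt_add n (c + dl F) (c' + dl F')
  omega

theorem zz (S : Vt → ZMod 2) : S + S = 0 := by
  funext v; exact z2 _

theorem ty_zero {n : ℕ} (hn : 0 < n) : ty n 0 = 0 := by
  have : sz n 0 = 0 := by simp [sz]
  rw [ty, this, if_pos (by positivity)]

/-- ladder lemma: the total type along two neighbouring rows differs by the end rungs -/
theorem ladder {n M : ℕ} (hM : 16 * M < n ^ 2) (u u' : ℕ → Vt → ZMod 2) (B : ℕ)
    (h : ∀ i < B, wt n (dl (u (i + 1) + u i)) ≤ M)
    (h' : ∀ i < B, wt n (dl (u' (i + 1) + u' i)) ≤ M)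
    (hr : ∀ i ≤ B, wt n (dl (u i + u' i)) ≤ M) :
    ∑ i ∈ range B, ty n (u (i + 1) + u i) + ty n (u B + u' B) =
      ty n (u 0 + u' 0) + ∑ i ∈ range B, ty n (u' (i + 1) + u' i) := by
  induction B with
  | zero => simp
  | succ B ih =>
    rw [sum_range_succ, sum_range_succ]
    have h1 := ih (fun i hi => h i (by omega)) (fun i hi => h' i (by omega))
      (fun i hi => hr i (by omega))
    have h2 : ty n (u (B + 1) + u B) + ty n (u (B + 1) + u' (B + 1)) =
        ty n (u B + u' B) + ty n (u' (B + 1) + u' B) := by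
      rw [← ty_add hM (h B (by omega)) (hr (B + 1) (by omega)),
        ← ty_add hM (hr B (by omega)) (h' B (by omega))]
      congr 1
      funext v
      simp only [Pi.add_apply]
      linear_combination z2 (u (B + 1) v) - z2 (u' B v)
    linear_combination h1 + h2

/-- the type of `S` with respect to a sweep -/
noncomputable def tau (n B : ℕ) (S : Finset Vt) (q : Vt → ℕ) : ZMod 2 :=
  ty n (Fill n 0) +
    ∑ i ∈ range B, ty n (Fill n (cut S ((box n \ S).filter (fun p => q p < i + 1))) +
      Fill n (cut S ((box n \ S).filter (fun p => q p < i)))) +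
    ty n (Fill n (cut S (box n \ S)) + ind S)

theorem tau_empty (n B : ℕ) (hn : 0 < n) (q : Vt → ℕ) : tau n B ∅ q = 0 := by
  have h0 : ind ∅ = 0 := by funext v; simp [ind]
  simp only [tau, empty_cut, zz, ty_zero hn, sum_const_zero, add_zero, h0]
  exact z2 _

theorem cut_compl {n : ℕ} {S : Finset Vt} {e : Fin 3 × Vt}
    (he : e ∈ edges n) : cut S (box n \ S) e = dl (ind S) e := by
  have h1 := mem_edges.1 he
  have h2 := box_of_sh h1
  simp only [cut, dl, ind, mem_sdiff, h1, h2, true_and]
  by_cases a : e.2 ∈ S <;> by_cases b : sh e.1 e.2 ∈ S <;> simp [a, b]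
  decide

theorem wt_cut_compl (n : ℕ) (S : Finset Vt) :
    wt n (cut S (box n \ S) + dl (ind S)) = 0 := by
  rw [wt, card_eq_zero, filter_eq_empty_iff]
  intro e he
  rw [Pi.add_apply, cut_compl he, not_not]
  exact z2 _

theorem odd_zero (n : ℕ) : odd n 0 = 0 := by
  simp [odd, sqv]

theorem wt_zero (n : ℕ) : wt n 0 = 0 := by
  simp [wt]

theorem tau_full {n : ℕ} (hn : 0 < n) (B : ℕ) (q : Vt → ℕ) : tau n B (box n) q = 1 := by
  have hbb : box n \ box n = ∅ := Finset.sdiff_self _
  simp only [tau, hbb, filter_empty, cut_empty, zz, ty_zero hn, sum_const_zero, add_zero]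
  have h1 : wt n (dl (Fill n 0)) ≤ 0 := by
    have := Fill_spec (n := n) (K := 0) (c := 0) (odd_zero n).le hn
    rw [zero_add, mul_zero] at this
    exact this
  have h2 : wt n (dl (ind (box n))) ≤ 0 := by
    have h := wt_cut_compl n (box n)
    rw [hbb, cut_empty, zero_add] at h
    exact h.le
  have hM : 16 * 0 < n ^ 2 := by positivity
  rw [ty_add hM h1 h2]
  have h3 : sz n (ind (box n)) = n ^ 3 := by
    rw [sz, ← card_box, filter_true_of_mem]
    intro v hv
    simp [ind, hv]
  have h4 : ty n (ind (box n)) = 1 := by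
    rw [ty, h3, if_neg]
    omega
  rw [h4]
  linear_combination z2 (ty n (Fill n 0))

theorem wt_cut_step {n c : ℕ} {S R R' P : Finset Vt} (hP : P.card ≤ c)
    (h : ∀ v ∈ box n, v ∉ P → (v ∈ R ↔ v ∈ R')) :
    wt n (cut S R + cut S R') ≤ 6 * c := by
  classical
  refine le_trans ?_ (Nat.mul_le_mul_left 6 hP)
  refine le_trans ?_ (edges_near n P)
  apply card_le_card
  intro e he
  obtain ⟨he1, he2⟩ := mem_filter.1 he
  refine mem_filter.2 ⟨he1, ?_⟩
  by_contra hcon
  push Not at hcon
  have b1 := mem_edges.1 he1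
  have b0 := box_of_sh b1
  apply he2
  have i0 := h _ b0 hcon.1
  have i1 := h _ b1 hcon.2
  simp only [Pi.add_apply, cut, ind, i0, i1]
  exact z2 _

theorem tau_indep {n k c c' B : ℕ} {S : Finset Vt} {q q' : Vt → ℕ}
    (hq : Close n k S q) (hq' : Close n k S q') (hf : Few n c S q) (hf' : Few n c' S q')
    (hB : ∀ v ∈ box n, q v < B) (hB' : ∀ v ∈ box n, q' v < B)
    (hn : 36 * (3 * k * (c + c')) < n)
    (hM : 16 * (2 * (n * (36 * (3 * k * (c + c')))) + 6 * (c + c')) < n ^ 2) :
    tau n B S q = tau n B S q' := by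
  classical
  set K := 36 * (3 * k * (c + c')) with hK
  have hn0 : 0 < n := by omega
  let W : ℕ → ℕ → Vt → ZMod 2 := fun i j => Fill n (cut S (Rg n S q i q' j))
  have hodd : ∀ i j, wt n (cut S (Rg n S q i q' j) + dl (W i j)) ≤ n * K := fun i j =>
    Fill_spec (odd_cut_le hq hq' hf hf') hn
  have hor : ∀ i j, wt n (dl (W (i + 1) j + W i j)) ≤ 2 * (n * K) + 6 * (c + c') := by
    intro i j
    refine dl_diff (hodd (i + 1) j) (hodd i j) ?_
    refine wt_cut_step (P := (box n \ S).filter (fun p => q p = i))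
      ((hf i).trans (Nat.le_add_right _ _)) ?_
    intro v hv hvP
    simp only [mem_filter, mem_sdiff, hv, true_and, not_and] at hvP
    simp only [mem_Rg, hv, true_and]
    constructor
    · rintro ⟨h1, h2, h3⟩
      have := hvP h1
      exact ⟨h1, by omega, h3⟩
    · rintro ⟨h1, h2, h3⟩
      exact ⟨h1, by omega, h3⟩
  have ver : ∀ i j, wt n (dl (W i (j + 1) + W i j)) ≤ 2 * (n * K) + 6 * (c + c') := by
    intro i j
    refine dl_diff (hodd i (j + 1)) (hodd i j) ?_
    refine wt_cut_step (P := (box n \ S).filter (fun p => q' p = j))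
      ((hf' j).trans (Nat.le_add_left _ _)) ?_
    intro v hv hvP
    simp only [mem_filter, mem_sdiff, hv, true_and, not_and] at hvP
    simp only [mem_Rg, hv, true_and]
    constructor
    · rintro ⟨h1, h2, h3⟩
      have := hvP h1
      exact ⟨h1, h2, by omega⟩
    · rintro ⟨h1, h2, h3⟩
      exact ⟨h1, h2, by omega⟩
  have hW0 : ∀ j, W 0 j = Fill n 0 := by
    intro j
    have : Rg n S q 0 q' j = ∅ := by simp [Rg]
    simp only [W, this, cut_empty]
  have hW0' : ∀ i, W i 0 = Fill n 0 := by
    intro j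
    have : Rg n S q j q' 0 = ∅ := by simp [Rg]
    simp only [W, this, cut_empty]
  have hWB : ∀ i, W i B = Fill n (cut S ((box n \ S).filter (fun p => q p < i))) := by
    intro i
    have : Rg n S q i q' B = (box n \ S).filter (fun p => q p < i) := by
      apply filter_congr
      intro p hp
      have := hB' p (mem_sdiff.1 hp).1
      simp [this]
    simp only [W, this]
  have hWB' : ∀ j, W B j = Fill n (cut S ((box n \ S).filter (fun p => q' p < j))) := by
    intro i
    have : Rg n S q B q' i = (box n \ S).filter (fun p => q' p < i) := by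
      apply filter_congr
      intro p hp
      have := hB p (mem_sdiff.1 hp).1
      simp [this]
    simp only [W, this]
  -- climb the rectangle
  have climb : ∀ j, ∑ i ∈ range B, ty n (W (i + 1) j + W i j) =
      ∑ j' ∈ range j, ty n (W B (j' + 1) + W B j') := by
    intro j
    induction j with
    | zero =>
      simp only [hW0', zz, ty_zero hn0, sum_const_zero, range_zero, sum_empty]
    | succ j ih =>
      have hl := ladder hM (fun i => W i (j + 1)) (fun i => W i j) B
        (fun i _ => hor i (j + 1)) (fun i _ => hor i j) (fun i _ => ver i j)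
      simp only [hW0, zz, ty_zero hn0] at hl
      rw [sum_range_succ, ← ih]
      linear_combination hl - z2 (ty n (W B (j + 1) + W B j))
  have hfin := climb B
  simp only [hWB, hWB'] at hfin
  simp only [tau]
  rw [hfin]

theorem tau_step {n k c c' B : ℕ} {S S' : Finset Vt} {q : Vt → ℕ}
    (hSS : S ⊆ S') (hcard : (S' \ S).card ≤ 12)
    (hq : Close n k S q) (hq' : Close n k S' q) (hf : Few n c S q) (hf' : Few n c' S' q)
    (hB : ∀ v ∈ box n, q v < B)
    (hn : 36 * (3 * k * (c + c + (c' + c'))) < n) (hn3 : 24 < n ^ 3)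
    (hM : 16 * (4 * (n * (36 * (3 * k * (c + c + (c' + c'))))) + 6 * (c + c' + 12)) < n ^ 2) :
    tau n B S q = tau n B S' q := by
  classical
  set K := 36 * (3 * k * (c + c + (c' + c'))) with hK
  have hn0 : 0 < n := by omega
  let R : ℕ → Finset Vt := fun i => (box n \ S).filter (fun p => q p < i)
  let R' : ℕ → Finset Vt := fun i => (box n \ S').filter (fun p => q p < i)
  have hRB : R B = box n \ S := by
    apply filter_true_of_mem
    intro p hp
    exact hB p (mem_sdiff.1 hp).1
  have hRB' : R' B = box n \ S' := by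
    apply filter_true_of_mem
    intro p hp
    exact hB p (mem_sdiff.1 hp).1
  have hodd : ∀ i, wt n (cut S (R i) + dl (Fill n (cut S (R i)))) ≤ n * K := by
    intro i
    have hR : R i = Rg n S q i q i := by
      apply filter_congr
      intro p _
      simp
    rw [hR]
    refine Fill_spec ((odd_cut_le hq hq hf hf).trans ?_) hn
    rw [hK]
    exact Nat.mul_le_mul_left 36 (Nat.mul_le_mul_left _ (by omega))
  have hodd' : ∀ i, wt n (cut S' (R' i) + dl (Fill n (cut S' (R' i)))) ≤ n * K := by
    intro i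
    have hR : R' i = Rg n S' q i q i := by
      apply filter_congr
      intro p _
      simp
    rw [hR]
    refine Fill_spec ((odd_cut_le hq' hq' hf' hf').trans ?_) hn
    rw [hK]
    exact Nat.mul_le_mul_left 36 (Nat.mul_le_mul_left _ (by omega))
  set M := 4 * (n * K) + 6 * (c + c' + 12) with hMdef
  have s1 : ∀ i, wt n (dl (Fill n (cut S (R (i + 1))) + Fill n (cut S (R i)))) ≤ M := by
    intro i
    have h1 : wt n (cut S (R (i + 1)) + cut S (R i)) ≤ 6 * c := by
      refine wt_cut_step (P := (box n \ S).filter (fun p => q p = i)) (hf i) ?_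
      intro v hv hvP
      simp only [mem_filter, mem_sdiff, hv, true_and, not_and] at hvP
      simp only [R, mem_filter, mem_sdiff, hv, true_and]
      constructor
      · rintro ⟨h1, h2⟩
        have := hvP h1
        exact ⟨h1, by omega⟩
      · rintro ⟨h1, h2⟩
        exact ⟨h1, by omega⟩
    have h2 := dl_diff (hodd (i + 1)) (hodd i) h1
    omega
  have s2 : ∀ i, wt n (dl (Fill n (cut S' (R' (i + 1))) + Fill n (cut S' (R' i)))) ≤ M := by
    intro i
    have h1 : wt n (cut S' (R' (i + 1)) + cut S' (R' i)) ≤ 6 * c' := by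
      refine wt_cut_step (P := (box n \ S').filter (fun p => q p = i)) (hf' i) ?_
      intro v hv hvP
      simp only [mem_filter, mem_sdiff, hv, true_and, not_and] at hvP
      simp only [R', mem_filter, mem_sdiff, hv, true_and]
      constructor
      · rintro ⟨h1, h2⟩
        have := hvP h1
        exact ⟨h1, by omega⟩
      · rintro ⟨h1, h2⟩
        exact ⟨h1, by omega⟩
    have h2 := dl_diff (hodd' (i + 1)) (hodd' i) h1
    omega
  have hcc : ∀ i, wt n (cut S (R i) + cut S' (R' i)) ≤ 6 * 12 := by
    intro i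
    refine le_trans ?_ (Nat.mul_le_mul_left 6 hcard)
    refine le_trans ?_ (edges_near n (S' \ S))
    apply card_le_card
    intro e he
    obtain ⟨he1, he2⟩ := mem_filter.1 he
    refine mem_filter.2 ⟨he1, ?_⟩
    by_contra hcon
    push Not at hcon
    have b1 := mem_edges.1 he1
    have b0 := box_of_sh b1
    apply he2
    have key : ∀ v, v ∈ box n → v ∉ S' \ S → ind S v = ind S' v ∧ ind (R i) v = ind (R' i) v := by
      intro v hv hvn
      have h1 : v ∈ S ↔ v ∈ S' := by
        constructor
        · intro h; exact hSS h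
        · intro h
          by_contra hns
          exact hvn (mem_sdiff.2 ⟨h, hns⟩)
      constructor
      · simp only [ind, h1]
      · simp only [ind, R, R', mem_filter, mem_sdiff, h1]
    have k0 := key _ b0 hcon.1
    have k1 := key _ b1 hcon.2
    simp only [Pi.add_apply, cut]
    rw [k0.1, k0.2, k1.1, k1.2]
    exact z2 _
  have s3 : ∀ i, wt n (dl (Fill n (cut S (R i)) + Fill n (cut S' (R' i)))) ≤ M := by
    intro i
    have h2 := dl_diff (hodd i) (hodd' i) (hcc i)
    omega
  have hl := ladder hM (fun i => Fill n (cut S (R i))) (fun i => Fill n (cut S' (R' i))) B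
    (fun i _ => s1 i) (fun i _ => s2 i) (fun i _ => s3 i)
  have hR0 : R 0 = ∅ := by simp [R]
  have hR0' : R' 0 = ∅ := by simp [R']
  simp only [hR0, hR0', cut_empty, zz, ty_zero hn0, hRB, hRB', zero_add] at hl
  -- end terms
  have hoddB := hodd B
  have hoddB' := hodd' B
  rw [hRB] at hoddB
  rw [hRB'] at hoddB'
  set F := Fill n (cut S (box n \ S)) with hF
  set F' := Fill n (cut S' (box n \ S')) with hF'
  have e1 : wt n (dl (F + ind S)) ≤ n * K := by
    have h0 := wt_cut_compl n S
    have heq : dl (F + ind S) = (cut S (box n \ S) + dl F) + (cut S (box n \ S) + dl (ind S)) := by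
      rw [dl_add]
      funext e
      simp only [Pi.add_apply]
      linear_combination - z2 (cut S (box n \ S) e)
    rw [heq]
    have h1 := wt_add n (cut S (box n \ S) + dl F) (cut S (box n \ S) + dl (ind S))
    omega
  have e2 : wt n (dl (F' + ind S')) ≤ n * K := by
    have h0 := wt_cut_compl n S'
    have heq : dl (F' + ind S') =
        (cut S' (box n \ S') + dl F') + (cut S' (box n \ S') + dl (ind S')) := by
      rw [dl_add]
      funext e
      simp only [Pi.add_apply]
      linear_combination - z2 (cut S' (box n \ S') e)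
    rw [heq]
    have h1 := wt_add n (cut S' (box n \ S') + dl F') (cut S' (box n \ S') + dl (ind S'))
    omega
  have e3 : wt n (dl (F + F')) ≤ 2 * (n * K) + 6 * 12 := by
    have h := hcc B
    rw [hRB, hRB'] at h
    exact dl_diff hoddB hoddB' h
  have e4 : wt n (dl ((F + ind S) + (F' + ind S'))) ≤ 2 * (n * K) := by
    rw [dl_add]
    have := wt_add n (dl (F + ind S)) (dl (F' + ind S'))
    omega
  have t1 : ty n ((F + ind S) + (F' + ind S')) = ty n (F + ind S) + ty n (F' + ind S') :=
    ty_add hM (by omega) (by omega)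
  have t2 : ty n ((F + F') + ((F + ind S) + (F' + ind S'))) =
      ty n (F + F') + ty n ((F + ind S) + (F' + ind S')) :=
    ty_add hM (by omega) (by omega)
  have hsum : (F + F') + ((F + ind S) + (F' + ind S')) = ind S + ind S' := by
    funext v
    simp only [Pi.add_apply]
    linear_combination z2 (F v) + z2 (F' v)
  have hsmall : ty n (ind S + ind S') = 0 := by
    have : sz n (ind S + ind S') ≤ 12 := by
      refine le_trans ?_ hcard
      apply card_le_card
      intro v hv
      obtain ⟨hv1, hv2⟩ := mem_filter.1 hv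
      by_contra hns
      apply hv2
      have h1 : v ∈ S ↔ v ∈ S' := by
        constructor
        · intro h; exact hSS h
        · intro h
          by_contra hns'
          exact hns (mem_sdiff.2 ⟨h, hns'⟩)
      simp only [Pi.add_apply, ind, h1]
      exact z2 _
    rw [ty, if_pos (by omega)]
  rw [hsum, hsmall, t1] at t2
  simp only [tau]
  change ty n (Fill n 0) + ∑ i ∈ range B, ty n (Fill n (cut S (R (i + 1))) +
      Fill n (cut S (R i))) + ty n (F + ind S) =
    ty n (Fill n 0) + ∑ i ∈ range B, ty n (Fill n (cut S' (R' (i + 1))) +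
      Fill n (cut S' (R' i))) + ty n (F' + ind S')
  linear_combination hl - t2 - z2 (ty n (F + F')) - z2 (ty n (F' + ind S'))

/-- `q` is a good sweep function for `S` -/
structure Valid (n k B : ℕ) (S : Finset Vt) (q : Vt → ℕ) : Prop where
  close : Close n k S q
  few : Few n 6 S q
  bound : ∀ v ∈ box n, q v < B

/-- **Main combinatorial theorem.** The type is invariant under small growth steps. -/
theorem tau_invariant {n k B : ℕ} {S S' : Finset Vt} {q q' : Vt → ℕ}
    (hn : 10 ^ 6 * (k + 1) ≤ n) (hmono : S ⊆ S')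
    (hstep : (S' \ S).card ≤ 12) (h : Valid n k B S q) (h' : Valid n k B S' q') :
    tau n B S q = tau n B S' q' := by
  classical
  have hn0 : 0 < n := by omega
  have hn3 : 24 < n ^ 3 := by
    calc 24 < n := by omega
      _ ≤ n ^ 3 := Nat.le_self_pow (by norm_num) n
  have hclose' : Close n k S q' := by
    intro v d hv hor
    apply h'.close v d hv
    rcases hor with h | h
    · left; exact hmono h
    · right; exact hmono h
  have hfew' : Few n 18 S q' := by
    intro m
    have hss : (box n \ S).filter (fun p => q' p = m) ⊆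
        (box n \ S').filter (fun p => q' p = m) ∪ (S' \ S) := by
      intro p hp
      rw [mem_filter, mem_sdiff] at hp
      rw [mem_union, mem_filter, mem_sdiff, mem_sdiff]
      by_cases h : p ∈ S'
      · right; exact ⟨h, hp.1.2⟩
      · left; exact ⟨⟨hp.1.1, h⟩, hp.2⟩
    have h1 := card_le_card hss
    have h2 := card_union_le ((box n \ S').filter (fun p => q' p = m)) (S' \ S)
    have h3 := h'.few m
    omega
  have h1 : tau n B S q = tau n B S q' := by
    refine tau_indep (k := k) (c := 6) (c' := 18) h.close hclose' h.few hfew'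
      h.bound h'.bound ?_ ?_
    · omega
    · nlinarith
  have h2 : tau n B S q' = tau n B S' q' := by
    refine tau_step (k := k) (c := 18) (c' := 6) hmono hstep hclose' h'.close hfew' h'.few
      h'.bound ?_ hn3 ?_
    · omega
    · nlinarith
  rw [h1, h2]

end Pool.Agent.H16.GridSweep
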