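import Mathlib

/-!
# Trigraphs, reduction sequences, bandwidth and reduced bandwidth
-/

namespace Pool.Agent.H16.RedBW

/-- The bandwidth of a finite graph `H`: the least `b` such that, for some bijection `σ` from the
vertices to `{0, …, |V| - 1}`, one has `|σ u - σ v| ≤ b` for every edge `u v`. -/
noncomputable def bandwidth {V : Type} [Fintype V] (H : SimpleGraph V) : ℕ :=
  sInf {b : ℕ | ∃ σ : V ≃ Fin (Fintype.card V),
    ∀ u v : V, H.Adj u v → |((σ u : ℕ) : ℤ) - ((σ v : ℕ) : ℤ)| ≤ (b : ℤ)}

/-- A trigraph: every edge is coloured black or red (and not both). -/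
structure Trigraph (V : Type) where
  /-- the graph of the black edges -/
  black : SimpleGraph V
  /-- the graph of the red edges -/
  red : SimpleGraph V
  /-- no edge has both colours -/
  not_both : ∀ x y, black.Adj x y → ¬ red.Adj x y

/-- `x` and `y` are joined by an edge of some colour. -/
def Trigraph.Edge {V : Type} (T : Trigraph V) (x y : V) : Prop :=
  T.black.Adj x y ∨ T.red.Adj x y

/-- `T'` arises from `T` by merging the two vertices `u ≠ v` into one new vertex `w`.
The map `f` gives the new names of the vertices of `T` in `T'`: both `u` and `v` are sent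
to `w`, and apart from this `f` is a bijection. -/
structure IsMerge {V W : Type} (T : Trigraph V) (T' : Trigraph W) (u v : V) (w : W)
    (f : V → W) : Prop where
  ne : u ≠ v
  map_u : f u = w
  map_v : f v = w
  surj : Function.Surjective f
  inj : ∀ x y, f x = f y → x = y ∨ ((x = u ∨ x = v) ∧ (y = u ∨ y = v))
  /-- `w x` is black if `u x` and `v x` are both black -/
  new_black : ∀ x, x ≠ u → x ≠ v →
    (T'.black.Adj w (f x) ↔ T.black.Adj u x ∧ T.black.Adj v x)
  /-- `w x` is red if it is neither black nor absent; absent means that neither `u x` nor `v x`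
  is an edge -/
  new_red : ∀ x, x ≠ u → x ≠ v →
    (T'.red.Adj w (f x) ↔ ¬ (T.black.Adj u x ∧ T.black.Adj v x) ∧ ¬ (¬ T.Edge u x ∧ ¬ T.Edge v x))
  /-- all other edges keep their colours -/
  old_black : ∀ x y, x ≠ u → x ≠ v → y ≠ u → y ≠ v →
    (T'.black.Adj (f x) (f y) ↔ T.black.Adj x y)
  old_red : ∀ x y, x ≠ u → x ≠ v → y ≠ u → y ≠ v →
    (T'.red.Adj (f x) (f y) ↔ T.red.Adj x y)

/-- A reduction sequence `G = T_n, T_{n-1}, …, T_1` of a graph `G` with `n` vertices: `T_i` is a
trigraph on `i` vertices, `T_n` is `G` with all edges black, and each `T_i` (`1 ≤ i < n`)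
arises from `T_{i+1}` by merging two vertices. -/
structure ReductionSequence {V : Type} [Fintype V] (G : SimpleGraph V) where
  /-- the trigraphs -/
  T : (i : ℕ) → Trigraph (Fin i)
  /-- the identification of the vertices of `G` with those of `T_n` -/
  e : V ≃ Fin (Fintype.card V)
  start_black : ∀ x y, (T (Fintype.card V)).black.Adj (e x) (e y) ↔ G.Adj x y
  start_red : ∀ x y, ¬ (T (Fintype.card V)).red.Adj x y
  step : ∀ i, 1 ≤ i → i < Fintype.card V → ∃ u v w f, IsMerge (T (i + 1)) (T i) u v w f

/-- The reduced bandwidth: the minimum over all reduction sequences of the maximum bandwidth of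
the red graphs of `T_1, …, T_n`. -/
noncomputable def reducedBandwidth {V : Type} [Fintype V] (G : SimpleGraph V) : ℕ :=
  sInf {b : ℕ | ∃ s : ReductionSequence G,
    ∀ i, 1 ≤ i → i ≤ Fintype.card V → bandwidth (s.T i).red ≤ b}

end Pool.Agent.H16.RedBW
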