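import Mathlib
import Pool.Agent.H16.RedBWDefs

/-!
# Every finite graph has a reduction sequence
-/

namespace Pool.Agent.H16.RedBW

open SimpleGraph

/-! ## Reduction sequences exist -/

/-- position of the part of `x` when all vertices from number `i - 1` on are merged -/
def pos (i x : ℕ) : ℕ := min x (i - 1)

/-- the trigraph of the partition given by `pos i` -/
def partTri {N : ℕ} (G : SimpleGraph (Fin N)) (i : ℕ) : Trigraph (Fin i) where
  black :=
    { Adj := fun a b => a ≠ b ∧ ∀ x y : Fin N, pos i x = a → pos i y = b → G.Adj x y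
      symm := ⟨fun a b h => ⟨h.1.symm, fun x y hx hy => (h.2 y x hy hx).symm⟩⟩
      loopless := ⟨fun _ h => h.1 rfl⟩ }
  red :=
    { Adj := fun a b => a ≠ b ∧ (∃ x y : Fin N, pos i x = a ∧ pos i y = b ∧ G.Adj x y) ∧
        ¬ ∀ x y : Fin N, pos i x = a → pos i y = b → G.Adj x y
      symm := ⟨fun a b h => ⟨h.1.symm, by
        obtain ⟨x, y, hx, hy, hxy⟩ := h.2.1
        exact ⟨y, x, hy, hx, hxy.symm⟩, fun hall => h.2.2 fun x y hx hy =>
          (hall y x hy hx).symm⟩⟩
      loopless := ⟨fun _ h => h.1 rfl⟩ }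
  not_both := fun _ _ hb hr => hr.2.2 hb.2

theorem partTri_edge {N : ℕ} (G : SimpleGraph (Fin N)) {i : ℕ} (hi : i ≤ N) (a b : Fin i) :
    (partTri G i).Edge a b ↔ a ≠ b ∧ ∃ x y : Fin N, pos i x = a ∧ pos i y = b ∧ G.Adj x y := by
  constructor
  · rintro (h | h)
    · refine ⟨h.1, ⟨a, by omega⟩, ⟨b, by omega⟩, ?_, ?_, ?_⟩
      · simp only [pos]; omega
      · simp only [pos]; omega
      · apply h.2
        · simp only [pos]; omega
        · simp only [pos]; omega
    · exact ⟨h.1, h.2.1⟩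
  · rintro ⟨h1, h2⟩
    by_cases hall : ∀ x y : Fin N, pos i x = a → pos i y = b → G.Adj x y
    · exact Or.inl ⟨h1, hall⟩
    · exact Or.inr ⟨h1, h2, hall⟩

theorem partTri_merge {N : ℕ} (G : SimpleGraph (Fin N)) {i : ℕ} (h1 : 1 ≤ i) (hi : i < N) :
    ∃ u v w f, IsMerge (partTri G (i + 1)) (partTri G i) u v w f := by
  have hlast : i - 1 < i + 1 := by omega
  refine ⟨⟨i - 1, hlast⟩, ⟨i, by omega⟩, ⟨i - 1, by omega⟩,
    fun x => ⟨pos i x, by simp only [pos]; omega⟩, ?_⟩
  have hp : ∀ (x : ℕ) (a : ℕ), a < i - 1 → (pos (i + 1) x = a ↔ pos i x = a) := by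
    intro x a ha
    simp only [pos]; omega
  have hlow : ∀ x : Fin (i + 1), x ≠ (⟨i - 1, hlast⟩ : Fin (i + 1)) →
      x ≠ (⟨i, by omega⟩ : Fin (i + 1)) → (x : ℕ) < i - 1 := by
    intro x hx1 hx2
    have h3 : (x : ℕ) ≠ i - 1 := fun h => hx1 (Fin.ext h)
    have h4 : (x : ℕ) ≠ i := fun h => hx2 (Fin.ext h)
    omega
  have hw : ∀ x : ℕ, pos i x = i - 1 ↔ pos (i + 1) x = i - 1 ∨ pos (i + 1) x = i := by
    intro x
    simp only [pos]; omega
  have hpx : ∀ x : Fin (i + 1), x ≠ (⟨i - 1, hlast⟩ : Fin (i + 1)) →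
      x ≠ (⟨i, by omega⟩ : Fin (i + 1)) → pos i x = x := by
    intro x hx1 hx2
    have := hlow x hx1 hx2
    simp only [pos]; omega
  have hblack : ∀ x : Fin (i + 1), x ≠ (⟨i - 1, hlast⟩ : Fin (i + 1)) →
      x ≠ (⟨i, by omega⟩ : Fin (i + 1)) →
      ((∀ y z : Fin N, pos i y = i - 1 → pos i z = x → G.Adj y z) ↔
      (partTri G (i + 1)).black.Adj ⟨i - 1, hlast⟩ x ∧
      (partTri G (i + 1)).black.Adj ⟨i, by omega⟩ x) := by
    intro x hx1 hx2
    have hl := hlow x hx1 hx2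
    constructor
    · intro h
      refine ⟨⟨fun hh => hx1 hh.symm, fun y z hy hz => ?_⟩,
        ⟨fun hh => hx2 hh.symm, fun y z hy hz => ?_⟩⟩
      · exact h y z ((hw y).2 (Or.inl hy)) ((hp z x hl).1 hz)
      · exact h y z ((hw y).2 (Or.inr hy)) ((hp z x hl).1 hz)
    · rintro ⟨ha, hb⟩ y z hy hz
      rcases (hw y).1 hy with h | h
      · exact ha.2 y z h ((hp z x hl).2 hz)
      · exact hb.2 y z h ((hp z x hl).2 hz)
  have hedge : ∀ x : Fin (i + 1), x ≠ (⟨i - 1, hlast⟩ : Fin (i + 1)) →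
      x ≠ (⟨i, by omega⟩ : Fin (i + 1)) →
      ((∃ y z : Fin N, pos i y = i - 1 ∧ pos i z = x ∧ G.Adj y z) ↔
      (partTri G (i + 1)).Edge ⟨i - 1, hlast⟩ x ∨
      (partTri G (i + 1)).Edge ⟨i, by omega⟩ x) := by
    intro x hx1 hx2
    have hl := hlow x hx1 hx2
    rw [partTri_edge G (by omega), partTri_edge G (by omega)]
    constructor
    · rintro ⟨y, z, hy, hz, hyz⟩
      rcases (hw y).1 hy with h | h
      · exact Or.inl ⟨fun hh => hx1 hh.symm, y, z, h, (hp z x hl).2 hz, hyz⟩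
      · exact Or.inr ⟨fun hh => hx2 hh.symm, y, z, h, (hp z x hl).2 hz, hyz⟩
    · rintro (⟨_, y, z, hy, hz, hyz⟩ | ⟨_, y, z, hy, hz, hyz⟩)
      · exact ⟨y, z, (hw y).2 (Or.inl hy), (hp z x hl).1 hz, hyz⟩
      · exact ⟨y, z, (hw y).2 (Or.inr hy), (hp z x hl).1 hz, hyz⟩
  have hneq : ∀ x : Fin (i + 1), x ≠ (⟨i - 1, hlast⟩ : Fin (i + 1)) →
      x ≠ (⟨i, by omega⟩ : Fin (i + 1)) →
      ((⟨i - 1, by omega⟩ : Fin i) ≠ ⟨pos i x, by simp only [pos]; omega⟩) := by
    intro x hx1 hx2 hh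
    have hl := hlow x hx1 hx2
    have h3 := hpx x hx1 hx2
    rw [Fin.mk.injEq] at hh
    omega
  refine ⟨?_, ?_, ?_, ?_, ?_, ?_, ?_, ?_, ?_⟩
  · intro h
    rw [Fin.mk.injEq] at h
    omega
  · rw [Fin.mk.injEq]; simp only [pos]; omega
  · rw [Fin.mk.injEq]; simp only [pos]; omega
  · intro a
    refine ⟨⟨a, by omega⟩, ?_⟩
    rw [Fin.ext_iff]
    simp only [pos]; omega
  · intro x y hxy
    rw [Fin.mk.injEq] at hxy
    simp only [pos] at hxy
    simp only [Fin.ext_iff]
    omega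
  · intro x hx1 hx2
    rw [← hblack x hx1 hx2]
    constructor
    · intro h y z hy hz
      exact h.2 y z hy (by rw [hz]; exact (hpx x hx1 hx2).symm)
    · intro h
      exact ⟨hneq x hx1 hx2, fun y z hy hz => h y z hy (by rw [hz]; exact hpx x hx1 hx2)⟩
  · intro x hx1 hx2
    have hor : ∀ p q : Prop, ¬ (¬ p ∧ ¬ q) ↔ p ∨ q := by intro p q; tauto
    rw [← hblack x hx1 hx2, hor, ← hedge x hx1 hx2]
    constructor
    · rintro ⟨_, ⟨y, z, hy, hz, hyz⟩, h3⟩
      refine ⟨fun hall => h3 fun y z hy hz => hall y z hy ?_, y, z, hy, ?_, hyz⟩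
      · rw [hz]; exact hpx x hx1 hx2
      · rw [hz]; exact hpx x hx1 hx2
    · rintro ⟨h3, y, z, hy, hz, hyz⟩
      refine ⟨hneq x hx1 hx2, ⟨y, z, hy, ?_, hyz⟩, fun hall => h3 fun y z hy hz =>
        hall y z hy ?_⟩
      · rw [hz]; exact (hpx x hx1 hx2).symm
      · rw [hz]; exact (hpx x hx1 hx2).symm
  · intro x y hx1 hx2 hy1 hy2
    have hlx := hlow x hx1 hx2
    have hly := hlow y hy1 hy2
    have hpx' := hpx x hx1 hx2
    have hpy' := hpx y hy1 hy2
    constructor
    · intro h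
      refine ⟨fun hh => h.1 (by rw [hh]), fun a b ha hb => h.2 a b ?_ ?_⟩
      · simp only; rw [hpx']; exact (hp a x hlx).1 ha
      · simp only; rw [hpy']; exact (hp b y hly).1 hb
    · intro h
      refine ⟨fun hh => h.1 ?_, fun a b ha hb => h.2 a b ?_ ?_⟩
      · rw [Fin.mk.injEq, hpx', hpy'] at hh
        exact Fin.ext hh
      · simp only at ha; rw [hpx'] at ha; exact (hp a x hlx).2 ha
      · simp only at hb; rw [hpy'] at hb; exact (hp b y hly).2 hb
  · intro x y hx1 hx2 hy1 hy2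
    have hlx := hlow x hx1 hx2
    have hly := hlow y hy1 hy2
    have hpx' := hpx x hx1 hx2
    have hpy' := hpx y hy1 hy2
    constructor
    · rintro ⟨h1, ⟨a, b, ha, hb, hab⟩, h3⟩
      simp only at ha hb h3
      rw [hpx'] at ha h3
      rw [hpy'] at hb h3
      refine ⟨fun hh => h1 (by rw [hh]), ⟨a, b, (hp a x hlx).2 ha, (hp b y hly).2 hb, hab⟩,
        fun hall => h3 fun a b ha hb => hall a b ((hp a x hlx).2 ha) ((hp b y hly).2 hb)⟩
    · rintro ⟨h1, ⟨a, b, ha, hb, hab⟩, h3⟩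
      refine ⟨fun hh => h1 ?_, ⟨a, b, ?_, ?_, hab⟩, fun hall => h3 fun a b ha hb =>
        hall a b ?_ ?_⟩
      · rw [Fin.mk.injEq, hpx', hpy'] at hh
        exact Fin.ext hh
      · simp only; rw [hpx']; exact (hp a x hlx).1 ha
      · simp only; rw [hpy']; exact (hp b y hly).1 hb
      · simp only; rw [hpx']; exact (hp a x hlx).1 ha
      · simp only; rw [hpy']; exact (hp b y hly).1 hb

theorem exists_sequence {V : Type} [Fintype V] (G : SimpleGraph V) :
    Nonempty (ReductionSequence G) := by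
  let e := Fintype.equivFin V
  let G' : SimpleGraph (Fin (Fintype.card V)) := G.map e.toEmbedding
  have hG' : ∀ x y, G'.Adj (e x) (e y) ↔ G.Adj x y := by
    intro x y
    exact SimpleGraph.map_adj_apply
  refine ⟨⟨fun i => partTri G' i, e, ?_, ?_, fun i h1 hi => partTri_merge G' h1 hi⟩⟩
  · intro x y
    rw [← hG']
    constructor
    · intro h
      apply h.2
      · simp only [pos]; omega
      · simp only [pos]; omega
    · intro h
      refine ⟨fun hh => ?_, fun a b ha hb => ?_⟩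
      · rw [hh] at h; exact G'.loopless.irrefl _ h
      · have h1 : a = e x := by
          apply Fin.ext
          simp only [pos] at ha
          omega
        have h2 : b = e y := by
          apply Fin.ext
          simp only [pos] at hb
          omega
        rw [h1, h2]; exact h
  · rintro x y ⟨h1, ⟨a, b, ha, hb, hab⟩, h3⟩
    apply h3
    intro a' b' ha' hb'
    have h1 : a = a' := by
      apply Fin.ext
      simp only [pos] at ha ha'
      omega
    have h2 : b = b' := by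
      apply Fin.ext
      simp only [pos] at hb hb'
      omega
    rw [← h1, ← h2]; exact hab

end Pool.Agent.H16.RedBW
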